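import Mathlib
import Pool.Agent.Helper70.HS.Stmts

set_option autoImplicit false

/-!
Module CHART of the project HS: one chart of the space of lines.
-/

namespace Pool.Agent.Helper68.HS

open Pool.Agent.Helper70.HS
open Pool.Agent.Helper69.RK (cel Yt)

noncomputable section

/-- euclidean space -/
abbrev EE (m : ℕ) := EuclideanSpace ℝ (Fin (m + 1))

/-- parameters of the line -/
def phi {m : ℕ} (i : Fin (m + 1)) (l : EE m × EE m) : (Fin m → ℝ) × (Fin m → ℝ) :=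
  (fun j => l.1 (i.succAbove j) - l.1 i * (l.2 (i.succAbove j) / l.2 i),
   fun j => l.2 (i.succAbove j) / l.2 i)

/-- coordinates of points -/
def psi {m : ℕ} (i : Fin (m + 1)) (y : EE m) : (Fin m → ℝ) × ℝ :=
  (fun j => y (i.succAbove j), y i)

lemma abs_le_norm {m : ℕ} (y : EE m) (k : Fin (m + 1)) : |y k| ≤ ‖y‖ := by
  have := PiLp.norm_apply_le y k
  rwa [Real.norm_eq_abs] at this

lemma abs_sub_le_dist {m : ℕ} (y z : EE m) (k : Fin (m + 1)) : |y k - z k| ≤ dist y z := by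
  rw [dist_eq_norm]
  have := abs_le_norm (y - z) k
  rwa [PiLp.sub_apply] at this

lemma psi_lip {m : ℕ} (i : Fin (m + 1)) : LipschitzWith 1 (psi (m := m) i) := by
  apply LipschitzWith.of_dist_le_mul
  intro y z
  rw [NNReal.coe_one, one_mul, Prod.dist_eq]
  apply max_le
  · rw [dist_pi_le_iff dist_nonneg]
    intro j
    exact abs_sub_le_dist y z _
  · exact abs_sub_le_dist y z i

/-- the direction with coordinates `x` -/
def dirw {m : ℕ} (i : Fin (m + 1)) (x : Fin m → ℝ) : EE m :=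
  WithLp.toLp 2 (i.insertNth (α := fun _ => ℝ) 1 x)

lemma dirw_i {m : ℕ} (i : Fin (m + 1)) (x : Fin m → ℝ) : dirw i x i = 1 := by
  unfold dirw
  simp

lemma dirw_s {m : ℕ} (i : Fin (m + 1)) (x : Fin m → ℝ) (j : Fin m) :
    dirw i x (i.succAbove j) = x j := by
  unfold dirw
  simp

lemma dirw_ne {m : ℕ} (i : Fin (m + 1)) (x : Fin m → ℝ) : dirw i x ≠ 0 := by
  intro h
  have := dirw_i i x
  rw [h] at this
  simp at this

lemma dirw_contDiff {m : ℕ} (i : Fin (m + 1)) : ContDiff ℝ 1 (dirw (m := m) i) := by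
  rw [contDiff_euclidean]
  intro k
  rcases Fin.eq_self_or_eq_succAbove i k with h | ⟨j, h⟩
  · subst h
    simp only [dirw_i]
    exact contDiff_const
  · subst h
    simp only [dirw_s]
    exact contDiff_apply ℝ ℝ j

lemma dirn_contDiff {m : ℕ} (i : Fin (m + 1)) (c : ℝ) :
    ContDiff ℝ 1 (fun x : Fin m → ℝ => c • (‖dirw i x‖⁻¹ • dirw i x)) := by
  have h1 := dirw_contDiff (m := m) i
  have h2 : ContDiff ℝ 1 (fun x : Fin m → ℝ => ‖dirw i x‖) := h1.norm ℝ (fun x => dirw_ne i x)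
  have h3 : ContDiff ℝ 1 (fun x : Fin m → ℝ => ‖dirw i x‖⁻¹) :=
    h2.inv (fun x => norm_ne_zero_iff.2 (dirw_ne i x))
  have h4 : ContDiff ℝ 1 (fun x : Fin m → ℝ => ‖dirw i x‖⁻¹ • dirw i x) := h3.smul h1
  have h5 : ContDiff ℝ 1 (fun _ : Fin m → ℝ => c) := contDiff_const
  exact h5.smul h4

lemma dir_eq {m : ℕ} (i : Fin (m + 1)) (e : EE m) (he : ‖e‖ = 1) (hi : e i ≠ 0) :
    e = (if 0 < e i then (1 : ℝ) else -1) •
      (‖dirw i (fun j => e (i.succAbove j) / e i)‖⁻¹ •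
        dirw i (fun j => e (i.succAbove j) / e i)) := by
  have h1 : dirw i (fun j => e (i.succAbove j) / e i) = (e i)⁻¹ • e := by
    ext k
    rcases Fin.eq_self_or_eq_succAbove i k with h | ⟨j, h⟩
    · subst h
      rw [dirw_i, PiLp.smul_apply, smul_eq_mul, inv_mul_cancel₀ hi]
    · subst h
      rw [dirw_s, PiLp.smul_apply, smul_eq_mul, div_eq_inv_mul]
  rw [h1, norm_smul, he, mul_one, norm_inv, inv_inv, Real.norm_eq_abs, smul_smul, smul_smul]
  split_ifs with h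
  · rw [abs_of_pos h, one_mul, mul_inv_cancel₀ hi, one_smul]
  · have h' : e i < 0 := lt_of_le_of_ne (not_lt.1 h) hi
    rw [abs_of_neg h']
    have : -1 * -e i * (e i)⁻¹ = 1 := by field_simp
    rw [this, one_smul]

lemma dimH_dir {m : ℕ} (i : Fin (m + 1)) (L : Set (EE m × EE m))
    (hL : ∀ l ∈ L, ‖l.2‖ = 1 ∧ l.2 i ≠ 0) :
    dimH (Prod.snd '' L) ≤ dimH (Prod.snd '' (phi i '' L)) := by
  have hsub : Prod.snd '' L ⊆
      ((fun x : Fin m → ℝ => (1 : ℝ) • (‖dirw i x‖⁻¹ • dirw i x)) '' (Prod.snd '' (phi i '' L))) ∪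
      ((fun x : Fin m → ℝ => (-1 : ℝ) • (‖dirw i x‖⁻¹ • dirw i x)) '' (Prod.snd '' (phi i '' L))) := by
    rintro _ ⟨l, hl, rfl⟩
    have h := dir_eq i l.2 (hL l hl).1 (hL l hl).2
    have hm : (fun j => l.2 (i.succAbove j) / l.2 i) ∈ Prod.snd '' (phi i '' L) :=
      ⟨phi i l, ⟨l, hl, rfl⟩, rfl⟩
    by_cases hp : 0 < l.2 i
    · left
      rw [if_pos hp] at h
      exact ⟨_, hm, h.symm⟩
    · right
      rw [if_neg hp] at h
      exact ⟨_, hm, h.symm⟩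
  refine (dimH_mono hsub).trans ?_
  rw [dimH_union]
  apply max_le
  · exact (dirn_contDiff i 1).contDiffOn.dimH_image_le convex_univ (Set.subset_univ _)
  · exact (dirn_contDiff i (-1)).contDiffOn.dimH_image_le convex_univ (Set.subset_univ _)

lemma floor_near {a b : ℝ} {N : ℕ} (h : |a - b| ≤ N) : ⌊a⌋ ∈ Finset.Icc (⌊b⌋ - N) (⌊b⌋ + N) := by
  rw [abs_le] at h
  rw [Finset.mem_Icc]
  have h1 := Int.floor_le a
  have h2 := Int.lt_floor_add_one a
  have h3 := Int.floor_le b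
  have h4 := Int.lt_floor_add_one b
  constructor
  · have : ((⌊b⌋ - N : ℤ) : ℝ) < ((⌊a⌋ + 1 : ℤ) : ℝ) := by push_cast; linarith
    have := Int.cast_lt.1 this
    omega
  · have : ((⌊a⌋ : ℤ) : ℝ) < ((⌊b⌋ + N + 1 : ℤ) : ℝ) := by push_cast; linarith
    have := Int.cast_lt.1 this
    omega

/-- the cells near `c` -/
def nbc {m : ℕ} (c : Fin m → ℤ) (N : ℕ) : Finset (Fin m → ℤ) :=
  Fintype.piFinset (fun j => Finset.Icc (c j - N) (c j + N))

lemma nbc_card {m : ℕ} (c : Fin m → ℤ) (N : ℕ) : (nbc c N).card = (2 * N + 1) ^ m := by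
  unfold nbc
  rw [Fintype.card_piFinset]
  have : ∀ j, (Finset.Icc (c j - N) (c j + N)).card = 2 * N + 1 := by
    intro j
    rw [Int.card_Icc]
    omega
  simp only [this, Finset.prod_const, Finset.card_univ, Fintype.card_fin]

lemma cel_near {m : ℕ} {n N : ℕ} {u v : Fin m → ℝ} (h : ∀ j, (2 : ℝ) ^ n * |u j - v j| ≤ N) :
    cel n u ∈ nbc (cel n v) N := by
  unfold nbc
  rw [Fintype.mem_piFinset]
  intro j
  apply floor_near
  rw [← mul_sub, abs_mul, abs_of_pos (by positivity : (0 : ℝ) < 2 ^ n)]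
  exact h j

/-- good lines -/
def Good {m : ℕ} (i : Fin (m + 1)) (ρ R : ℝ) (l : EE m × EE m) : Prop :=
  ‖l.2‖ = 1 ∧ ρ ≤ |l.2 i| ∧ ‖l.1‖ ≤ R

lemma phi_lip {m : ℕ} (i : Fin (m + 1)) {ρ R d : ℝ} (hρ : 0 < ρ) (hR : 0 ≤ R) {l l' : EE m × EE m}
    (h : Good i ρ R l) (h' : Good i ρ R l') (hd : dist l l' ≤ d) (j : Fin m) :
    |(phi i l).1 j - (phi i l').1 j| ≤ (1 + 1 / ρ + 2 * R / ρ ^ 2) * d ∧
    |(phi i l).2 j - (phi i l').2 j| ≤ (1 + 1 / ρ + 2 / ρ ^ 2) * d := by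
  obtain ⟨he, hr, hp⟩ := h
  obtain ⟨he', hr', hp'⟩ := h'
  have hd0 : 0 ≤ d := dist_nonneg.trans hd
  have hd1 : dist l.1 l'.1 ≤ d := (le_max_left _ _).trans hd
  have hd2 : dist l.2 l'.2 ≤ d := (le_max_right _ _).trans hd
  have hne : l.2 i ≠ 0 := by
    intro h0; rw [h0, abs_zero] at hr; linarith
  have hne' : l'.2 i ≠ 0 := by
    intro h0; rw [h0, abs_zero] at hr'; linarith
  -- difference of the directions
  have hx : |l.2 (i.succAbove j) / l.2 i - l'.2 (i.succAbove j) / l'.2 i| ≤ 2 / ρ ^ 2 * d := by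
    have e1 : l.2 (i.succAbove j) / l.2 i - l'.2 (i.succAbove j) / l'.2 i =
        (l.2 (i.succAbove j) * (l'.2 i - l.2 i) + l.2 i * (l.2 (i.succAbove j) - l'.2 (i.succAbove j))) /
          (l.2 i * l'.2 i) := by
      field_simp
      ring
    rw [e1, abs_div, abs_mul]
    have h1 : |l.2 (i.succAbove j) * (l'.2 i - l.2 i) +
        l.2 i * (l.2 (i.succAbove j) - l'.2 (i.succAbove j))| ≤ 2 * d := by
      have a1 : |l.2 (i.succAbove j)| ≤ 1 := he ▸ abs_le_norm l.2 _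
      have a2 : |l.2 i| ≤ 1 := he ▸ abs_le_norm l.2 _
      have a3 : |l'.2 i - l.2 i| ≤ d := by
        rw [abs_sub_comm]; exact (abs_sub_le_dist l.2 l'.2 i).trans hd2
      have a4 : |l.2 (i.succAbove j) - l'.2 (i.succAbove j)| ≤ d :=
        (abs_sub_le_dist l.2 l'.2 _).trans hd2
      calc _ ≤ |l.2 (i.succAbove j) * (l'.2 i - l.2 i)| +
            |l.2 i * (l.2 (i.succAbove j) - l'.2 (i.succAbove j))| := abs_add_le _ _
        _ = |l.2 (i.succAbove j)| * |l'.2 i - l.2 i| +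
            |l.2 i| * |l.2 (i.succAbove j) - l'.2 (i.succAbove j)| := by rw [abs_mul, abs_mul]
        _ ≤ 1 * d + 1 * d := by
            apply add_le_add
            · exact mul_le_mul a1 a3 (abs_nonneg _) zero_le_one
            · exact mul_le_mul a2 a4 (abs_nonneg _) zero_le_one
        _ = 2 * d := by ring
    have h2 : ρ ^ 2 ≤ |l.2 i| * |l'.2 i| := by
      rw [pow_two]; exact mul_le_mul hr hr' hρ.le (abs_nonneg _)
    calc _ ≤ (2 * d) / ρ ^ 2 := div_le_div₀ (by positivity) h1 (by positivity) h2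
      _ = 2 / ρ ^ 2 * d := by ring
  constructor
  · unfold phi
    simp only
    have a1 : |l.1 (i.succAbove j) - l'.1 (i.succAbove j)| ≤ d := (abs_sub_le_dist l.1 l'.1 _).trans hd1
    have a2 : |l.1 i - l'.1 i| ≤ d := (abs_sub_le_dist l.1 l'.1 _).trans hd1
    have a3 : |l.2 (i.succAbove j) / l.2 i| ≤ 1 / ρ := by
      rw [abs_div]
      exact div_le_div₀ zero_le_one (he ▸ abs_le_norm l.2 _) hρ hr
    have a4 : |l'.1 i| ≤ R := (abs_le_norm l'.1 i).trans hp'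
    calc |l.1 (i.succAbove j) - l.1 i * (l.2 (i.succAbove j) / l.2 i) -
          (l'.1 (i.succAbove j) - l'.1 i * (l'.2 (i.succAbove j) / l'.2 i))|
        = |(l.1 (i.succAbove j) - l'.1 (i.succAbove j)) -
            ((l.1 i - l'.1 i) * (l.2 (i.succAbove j) / l.2 i) +
            l'.1 i * (l.2 (i.succAbove j) / l.2 i - l'.2 (i.succAbove j) / l'.2 i))| := by
          congr 1; ring
      _ ≤ |l.1 (i.succAbove j) - l'.1 (i.succAbove j)| +
            |(l.1 i - l'.1 i) * (l.2 (i.succAbove j) / l.2 i) +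
            l'.1 i * (l.2 (i.succAbove j) / l.2 i - l'.2 (i.succAbove j) / l'.2 i)| := abs_sub _ _
      _ ≤ |l.1 (i.succAbove j) - l'.1 (i.succAbove j)| +
            (|(l.1 i - l'.1 i) * (l.2 (i.succAbove j) / l.2 i)| +
            |l'.1 i * (l.2 (i.succAbove j) / l.2 i - l'.2 (i.succAbove j) / l'.2 i)|) := by
          gcongr; exact abs_add_le _ _
      _ ≤ d + (d * (1 / ρ) + R * (2 / ρ ^ 2 * d)) := by
          rw [abs_mul, abs_mul]
          gcongr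
      _ = (1 + 1 / ρ + 2 * R / ρ ^ 2) * d := by ring
  · unfold phi
    simp only
    refine hx.trans ?_
    apply mul_le_mul_of_nonneg_right _ hd0
    have : 0 ≤ 1 / ρ := by positivity
    linarith

lemma box_piece {m : ℕ} (i : Fin (m + 1)) {ρ : ℝ} (hρ : 0 < ρ) (σ : ℝ) (P : Set (EE m × EE m))
    (C : ℝ) (hP : ∀ δ : ℝ, 0 < δ → δ ≤ 1 → ∃ F : Finset (EE m × EE m),
      (F.card : ℝ) ≤ C * δ ^ (-σ) ∧ P ⊆ ⋃ q ∈ F, Metric.closedBall q δ) :
    ∃ M : ℝ, Box σ M (phi i '' (P ∩ {l | ‖l.2‖ = 1 ∧ ρ ≤ |l.2 i|})) := by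
  classical
  -- `P` is bounded
  obtain ⟨R, hR0, hR⟩ : ∃ R : ℝ, 0 ≤ R ∧ ∀ l ∈ P, ‖l.1‖ ≤ R := by
    obtain ⟨F, _, hF⟩ := hP 1 one_pos le_rfl
    have hb : Bornology.IsBounded (⋃ q ∈ F, Metric.closedBall q (1 : ℝ)) := by
      rw [Bornology.isBounded_biUnion_finset]
      intro q _
      exact Metric.isBounded_closedBall
    obtain ⟨R, hR⟩ := (hb.subset hF).exists_norm_le
    refine ⟨max R 0, le_max_right _ _, fun l hl => ?_⟩
    exact ((le_max_left _ _).trans (hR l hl)).trans (le_max_left _ _)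
  set A : ℝ := (1 + 1 / ρ + 2 * R / ρ ^ 2) + (1 + 1 / ρ + 2 / ρ ^ 2) with hA
  have hA0 : 0 ≤ A := by rw [hA]; positivity
  set N : ℕ := ⌈A * 2⌉₊ with hN
  refine ⟨C * ((2 * N + 1) ^ m * (2 * N + 1) ^ m : ℕ), ?_⟩
  intro n
  have hδ : (0 : ℝ) < (2 : ℝ) ^ (-(n : ℝ)) := by positivity
  have hδ1 : (2 : ℝ) ^ (-(n : ℝ)) ≤ 1 :=
    Real.rpow_le_one_of_one_le_of_nonpos (by norm_num) (neg_nonpos.2 (Nat.cast_nonneg n))
  obtain ⟨F, hFc, hF⟩ := hP _ hδ hδ1
  set δ : ℝ := (2 : ℝ) ^ (-(n : ℝ)) with hδdef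
  have h2n : (2 : ℝ) ^ n * δ = 1 := by
    rw [hδdef, Real.rpow_neg (by norm_num), Real.rpow_natCast, mul_inv_cancel₀ (by positivity)]
  let T : EE m × EE m → Finset ((Fin m → ℤ) × (Fin m → ℤ)) := fun q =>
    if h : ∃ u, (u ∈ P ∩ {l | ‖l.2‖ = 1 ∧ ρ ≤ |l.2 i|}) ∧ u ∈ Metric.closedBall q δ then
      nbc (cel n (phi i h.choose).1) N ×ˢ nbc (cel n (phi i h.choose).2) N
    else ∅
  have hT : ∀ q, (T q).card ≤ (2 * N + 1) ^ m * (2 * N + 1) ^ m := by
    intro q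
    show (dite _ _ _ : Finset _).card ≤ _
    split_ifs with h
    · rw [Finset.card_product, nbc_card, nbc_card]
    · simp
  refine ⟨F.biUnion T, ?_, ?_⟩
  · rintro _ ⟨u', hu', rfl⟩
    have hq := hF hu'.1
    rw [Set.mem_iUnion₂] at hq
    obtain ⟨q, hqF, hqu⟩ := hq
    rw [Finset.mem_biUnion]
    refine ⟨q, hqF, ?_⟩
    have h : ∃ u, (u ∈ P ∩ {l | ‖l.2‖ = 1 ∧ ρ ≤ |l.2 i|}) ∧ u ∈ Metric.closedBall q δ :=
      ⟨u', hu', hqu⟩
    have hTq : T q = nbc (cel n (phi i h.choose).1) N ×ˢ nbc (cel n (phi i h.choose).2) N :=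
      dif_pos h
    rw [hTq]
    obtain ⟨hu, huq⟩ := h.choose_spec
    set u := h.choose
    have hdist : dist u' u ≤ 2 * δ := by
      rw [Metric.mem_closedBall] at hqu huq
      calc dist u' u ≤ dist u' q + dist u q := dist_triangle_right _ _ _
        _ ≤ 2 * δ := by linarith
    have g' : Good i ρ R u' := ⟨hu'.2.1, hu'.2.2, hR u' hu'.1⟩
    have g : Good i ρ R u := ⟨hu.2.1, hu.2.2, hR u hu.1⟩
    have hkey : A * 2 ≤ N := Nat.le_ceil _
    have e1 : ∀ B : ℝ, B ≤ A → (2 : ℝ) ^ n * (B * (2 * δ)) ≤ N := by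
      intro B hB
      calc (2 : ℝ) ^ n * (B * (2 * δ)) = B * 2 * ((2 : ℝ) ^ n * δ) := by ring
        _ = B * 2 := by rw [h2n, mul_one]
        _ ≤ A * 2 := by linarith
        _ ≤ N := hkey
    have p1 : (0 : ℝ) ≤ 1 + 1 / ρ + 2 * R / ρ ^ 2 := by positivity
    have p2 : (0 : ℝ) ≤ 1 + 1 / ρ + 2 / ρ ^ 2 := by positivity
    rw [Finset.mem_product]
    constructor
    · apply cel_near
      intro j
      exact (mul_le_mul_of_nonneg_left (phi_lip i hρ hR0 g' g hdist j).1 (by positivity)).trans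
        (e1 _ (by rw [hA]; linarith))
    · apply cel_near
      intro j
      exact (mul_le_mul_of_nonneg_left (phi_lip i hρ hR0 g' g hdist j).2 (by positivity)).trans
        (e1 _ (by rw [hA]; linarith))
  · have h1 : (F.biUnion T).card ≤ F.card * ((2 * N + 1) ^ m * (2 * N + 1) ^ m) :=
      Finset.card_biUnion_le_card_mul _ _ _ (fun q _ => hT q)
    have h2 : δ ^ (-σ) = (2 : ℝ) ^ (σ * (n : ℝ)) := by
      rw [hδdef, ← Real.rpow_mul (by norm_num)]
      congr 1; ring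
    calc ((F.biUnion T).card : ℝ) ≤ (F.card : ℝ) * (((2 * N + 1) ^ m * (2 * N + 1) ^ m : ℕ) : ℝ) := by
          exact_mod_cast h1
      _ ≤ C * δ ^ (-σ) * (((2 * N + 1) ^ m * (2 * N + 1) ^ m : ℕ) : ℝ) := by
          apply mul_le_mul_of_nonneg_right hFc (Nat.cast_nonneg _)
      _ = C * (((2 * N + 1) ^ m * (2 * N + 1) ^ m : ℕ) : ℝ) * (2 : ℝ) ^ (σ * (n : ℝ)) := by
          rw [h2]; ring

lemma heights {m : ℕ} (i : Fin (m + 1)) (l : EE m × EE m) (K : Set (EE m)) (hi : l.2 i ≠ 0)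
    (h : 1 ≤ dimH {t : ℝ | l.1 + t • l.2 ∈ K}) :
    1 ≤ dimH {t : ℝ | (Yt t (phi i l).1 (phi i l).2, t) ∈ psi i '' K} := by
  set g : ℝ → ℝ := fun t => (t - l.1 i) / l.2 i with hg
  have hlip : LipschitzWith (Real.toNNReal |l.2 i|⁻¹) g := by
    apply LipschitzWith.of_dist_le_mul
    intro x y
    rw [Real.dist_eq, Real.dist_eq, Real.coe_toNNReal _ (by positivity)]
    have : g x - g y = (l.2 i)⁻¹ * (x - y) := by
      rw [hg]; simp only; field_simp; ring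
    rw [this, abs_mul, abs_inv]
  refine h.trans ?_
  refine le_trans (dimH_mono ?_) (hlip.dimH_image_le _)
  intro τ hτ
  refine ⟨l.1 i + τ * l.2 i, ?_, ?_⟩
  · refine ⟨l.1 + τ • l.2, hτ, ?_⟩
    unfold psi Yt phi
    ext1
    · funext j
      simp only [PiLp.add_apply, PiLp.smul_apply, smul_eq_mul]
      field_simp
      ring
    · simp only [PiLp.add_apply, PiLp.smul_apply, smul_eq_mul]
  · rw [hg]
    simp only
    field_simp
    ring

theorem st_CHART : ST_CHART := by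
  intro m i s ρ L K hρ hs hL hP hK
  have hne : ∀ l ∈ L, l.2 i ≠ 0 := by
    intro l hl h0
    have := (hL l hl).2
    rw [h0, abs_zero] at this
    linarith
  refine ⟨phi i '' L, psi i '' K, ?_, ?_, ?_, ?_⟩
  · intro η hη
    obtain ⟨P, hcov, hPk⟩ := hP η hη
    refine ⟨fun k => phi i '' (P k ∩ {l | ‖l.2‖ = 1 ∧ ρ ≤ |l.2 i|}), ?_, ?_⟩
    · rintro _ ⟨l, hl, rfl⟩
      obtain ⟨k, hk⟩ := Set.mem_iUnion.1 (hcov hl)
      exact Set.mem_iUnion.2 ⟨k, ⟨l, ⟨hk, hL l hl⟩, rfl⟩⟩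
    · intro k
      obtain ⟨C, hC⟩ := hPk k
      exact box_piece i hρ (s + η) (P k) C hC
  · exact dimH_dir i L (fun l hl => ⟨(hL l hl).1, hne l hl⟩)
  · rintro _ ⟨l, hl, rfl⟩
    exact heights i l K (hne l hl) (hK l hl)
  · exact (psi_lip i).dimH_image_le K

end

end Pool.Agent.Helper68.HS
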