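import Mathlib
import Pool.Agent.Helper68.HS.CHART
import Pool.Agent.Helper70.HS.Stmts2

set_option autoImplicit false

/-!
Module CHART2 of the project HS: one chart of the space of lines, heights of any dimension.
-/

namespace Pool.Agent.Helper68.HS

open Pool.Agent.Helper70.HS
open Pool.Agent.Helper69.RK (cel Yt)

noncomputable section

lemma heights2 {m : ℕ} (i : Fin (m + 1)) (l : EE m × EE m) (K : Set (EE m)) (h : ENNReal)
    (hi : l.2 i ≠ 0) (hh : h ≤ dimH {t : ℝ | l.1 + t • l.2 ∈ K}) :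
    h ≤ dimH {t : ℝ | (Yt t (phi i l).1 (phi i l).2, t) ∈ psi i '' K} := by
  set g : ℝ → ℝ := fun t => (t - l.1 i) / l.2 i with hg
  have hlip : LipschitzWith (Real.toNNReal |l.2 i|⁻¹) g := by
    apply LipschitzWith.of_dist_le_mul
    intro x y
    rw [Real.dist_eq, Real.dist_eq, Real.coe_toNNReal _ (by positivity)]
    have : g x - g y = (l.2 i)⁻¹ * (x - y) := by
      rw [hg]; simp only; field_simp; ring
    rw [this, abs_mul, abs_inv]
  refine hh.trans ?_
  refine le_trans (dimH_mono ?_) (hlip.dimH_image_le _)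
  intro τ hτ
  refine ⟨l.1 i + τ * l.2 i, ?_, ?_⟩
  · refine ⟨l.1 + τ • l.2, hτ, ?_⟩
    unfold psi Yt phi
    ext1
    · funext j
      simp only [PiLp.add_apply, PiLp.smul_apply, smul_eq_mul]
      field_simp
      ring
    · simp only [PiLp.add_apply, PiLp.smul_apply, smul_eq_mul]
  · rw [hg]
    simp only
    field_simp
    ring

theorem st_CHART2 : ST_CHART2 := by
  intro m i s ρ h L K hρ hs hL hP hK
  have hne : ∀ l ∈ L, l.2 i ≠ 0 := by
    intro l hl h0
    have := (hL l hl).2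
    rw [h0, abs_zero] at this
    linarith
  refine ⟨phi i '' L, psi i '' K, ?_, ?_, ?_, ?_⟩
  · intro η hη
    obtain ⟨P, hcov, hPk⟩ := hP η hη
    refine ⟨fun k => phi i '' (P k ∩ {l | ‖l.2‖ = 1 ∧ ρ ≤ |l.2 i|}), ?_, ?_⟩
    · rintro _ ⟨l, hl, rfl⟩
      obtain ⟨k, hk⟩ := Set.mem_iUnion.1 (hcov hl)
      exact Set.mem_iUnion.2 ⟨k, ⟨l, ⟨hk, hL l hl⟩, rfl⟩⟩
    · intro k
      obtain ⟨C, hC⟩ := hPk k
      exact box_piece i hρ (s + η) (P k) C hC
  · exact dimH_dir i L (fun l hl => ⟨(hL l hl).1, hne l hl⟩)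
  · rintro _ ⟨l, hl, rfl⟩
    exact heights2 i l K h (hne l hl) (hK l hl)
  · exact (psi_lip i).dimH_image_le K

end

end Pool.Agent.Helper68.HS
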